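import Pool.Agent.UL3.Stmts

/-! Squad UL3, row PLN: the plane lemma. -/

set_option autoImplicit false

namespace Pool.Agent.UL3.H23

open MeasureTheory Set

/-- the linear map with columns `a`, `b` -/
noncomputable def Ph (a b : ℝ × ℝ) : (ℝ × ℝ) →ₗ[ℝ] (ℝ × ℝ) :=
  Matrix.toLin (Module.Basis.finTwoProd ℝ) (Module.Basis.finTwoProd ℝ) !![a.1, b.1; a.2, b.2]

theorem ph_apply (a b x : ℝ × ℝ) :
    Ph a b x = (a.1 * x.1 + b.1 * x.2, a.2 * x.1 + b.2 * x.2) := by
  rw [Ph, Matrix.toLin_finTwoProd_apply]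

theorem ph_det (a b : ℝ × ℝ) : LinearMap.det (Ph a b) = cr a b := by
  rw [Ph, LinearMap.det_toLin, Matrix.det_fin_two]
  simp [cr]
  ring

theorem ph_cr (a b p q : ℝ × ℝ) : cr (Ph a b p) (Ph a b q) = cr a b * cr p q := by
  rw [ph_apply, ph_apply]
  simp only [cr]
  ring

/-- the homeomorphism -/
noncomputable def He (a b : ℝ × ℝ) (h : 0 < cr a b) : (ℝ × ℝ) ≃ₜ (ℝ × ℝ) where
  toFun := fun x => (a.1 * x.1 + b.1 * x.2, a.2 * x.1 + b.2 * x.2)
  invFun := fun w => (cr w b / cr a b, cr a w / cr a b)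
  left_inv := by
    intro x
    have h' : cr a b ≠ 0 := h.ne'
    have h1 : cr (a.1 * x.1 + b.1 * x.2, a.2 * x.1 + b.2 * x.2) b = x.1 * cr a b := by
      simp only [cr]
      ring
    have h2 : cr a (a.1 * x.1 + b.1 * x.2, a.2 * x.1 + b.2 * x.2) = x.2 * cr a b := by
      simp only [cr]
      ring
    simp only [h1, h2]
    rw [mul_div_cancel_right₀ _ h', mul_div_cancel_right₀ _ h']
  right_inv := by
    intro w
    have h' : cr a b ≠ 0 := h.ne'
    ext
    · simp only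
      field_simp
      simp only [cr]
      ring
    · simp only
      field_simp
      simp only [cr]
      ring
  continuous_toFun := by fun_prop
  continuous_invFun := by
    unfold cr
    fun_prop

theorem he_apply (a b : ℝ × ℝ) (h : 0 < cr a b) (x : ℝ × ℝ) : He a b h x = Ph a b x := by
  rw [ph_apply]
  rfl

theorem pln (h1 : PaaStmt) (h2 : PabStmt) (h3 : PacStmt) : PlnStmt := by
  intro M hM
  obtain ⟨a, b, ha, hb, hba, hadm, hD, hmin⟩ := h2 M hM
  refine ⟨a, b, hadm, hD, ?_⟩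
  obtain ⟨e, he⟩ : ∃ e : (ℝ × ℝ) ≃ₜ (ℝ × ℝ), ∀ x, e x = Ph a b x :=
    ⟨He a b hD, he_apply a b hD⟩
  obtain ⟨M', hM'⟩ : ∃ M' : Set (ℝ × ℝ), M' = e ⁻¹' M := ⟨_, rfl⟩
  have hmem : ∀ p, p ∈ M' ↔ Ph a b p ∈ M := by
    intro p
    rw [hM', mem_preimage, he]
  have hint : interior M' = e ⁻¹' (interior M) := by
    rw [hM']
    exact (e.preimage_interior M).symm
  have hintm : ∀ p, p ∈ interior M' ↔ Ph a b p ∈ interior M := by
    intro p
    rw [hint, mem_preimage, he]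
  have hPB : PB M' := by
    refine ⟨?_, ?_, ?_, ?_⟩
    · rw [hM', ← e.image_symm]
      exact hM.cpt.image e.symm.continuous
    · have h5 : M' = (Ph a b) ⁻¹' M := by
        ext p
        rw [hmem, mem_preimage]
      rw [h5]
      exact hM.cvx.linear_preimage _
    · intro x hx
      rw [hmem] at hx ⊢
      rw [map_neg]
      exact hM.sym _ hx
    · obtain ⟨y, hy⟩ := hM.int
      refine ⟨e.symm y, ?_⟩
      rw [hint, mem_preimage, e.apply_symm_apply]
      exact hy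
  have m1 : ((1, 0) : ℝ × ℝ) ∈ M' := by
    rw [hmem, ph_apply]
    simpa using ha
  have m2 : ((0, 1) : ℝ × ℝ) ∈ M' := by
    rw [hmem, ph_apply]
    simpa using hb
  have m3 : ((-1, 1) : ℝ × ℝ) ∈ M' := by
    rw [hmem, ph_apply]
    have h5 : ((a.1 * (-1, (1 : ℝ)).1 + b.1 * ((-1 : ℝ), (1 : ℝ)).2,
        a.2 * (-1, (1 : ℝ)).1 + b.2 * ((-1 : ℝ), (1 : ℝ)).2) : ℝ × ℝ) = b - a := by
      ext
      · simp
        ring
      · simp
        ring
    rw [h5]
    exact hba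
  have m4 : ((1, 1) : ℝ × ℝ) ∉ interior M' := by
    rw [hintm, ph_apply]
    have h5 := hadm 1 1 (Or.inl one_ne_zero)
    have h6 : ((a.1 * ((1 : ℝ), (1 : ℝ)).1 + b.1 * ((1 : ℝ), (1 : ℝ)).2,
        a.2 * ((1 : ℝ), (1 : ℝ)).1 + b.2 * ((1 : ℝ), (1 : ℝ)).2) : ℝ × ℝ) =
        ((1 : ℤ) : ℝ) • a + ((1 : ℤ) : ℝ) • b := by
      ext <;> simp
    rw [h6]
    exact h5
  -- the largest `x`
  obtain ⟨X, hX⟩ : ∃ X : Set ℝ, X = (fun t : ℝ => ((t, t) : ℝ × ℝ)) ⁻¹' M' := ⟨_, rfl⟩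
  have hXm : ∀ t, t ∈ X ↔ ((t, t) : ℝ × ℝ) ∈ M' := by
    intro t
    rw [hX, mem_preimage]
  have hcont : Continuous (fun t : ℝ => ((t, t) : ℝ × ℝ)) := by fun_prop
  have hXc : IsCompact X := by
    have hcl : IsClosed X := by
      rw [hX]
      exact hPB.cpt.isClosed.preimage hcont
    have hsub : X ⊆ Prod.fst '' M' := by
      intro t ht
      exact ⟨(t, t), (hXm t).1 ht, rfl⟩
    exact (hPB.cpt.image continuous_fst).of_isClosed_subset hcl hsub
  have hhalf : (1 / 2 : ℝ) ∈ X := by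
    rw [hXm]
    have h5 := hPB.cvx m1 m2 (a := 1 / 2) (b := 1 / 2) (by norm_num) (by norm_num) (by norm_num)
    have h6 : ((1 / 2 : ℝ) • ((1, 0) : ℝ × ℝ) + (1 / 2 : ℝ) • ((0, 1) : ℝ × ℝ)) =
        ((1 / 2, 1 / 2) : ℝ × ℝ) := by
      ext <;> simp
    rw [h6] at h5
    exact h5
  obtain ⟨x, hxX, hxmax⟩ := hXc.exists_isGreatest ⟨_, hhalf⟩
  have hx2 : 1 / 2 ≤ x := hxmax hhalf
  have hx0 : 0 < x := by linarith
  have hxM : ((x, x) : ℝ × ℝ) ∈ M' := (hXm x).1 hxX
  have hx1 : x ≤ 1 := by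
    by_contra hcon
    push Not at hcon
    apply m4
    have h5 := hPB.cvx.combo_interior_self_mem_interior hPB.zero_mem hxM (a := 1 - 1 / x)
      (b := 1 / x) (by
        have : 1 / x < 1 := by
          rw [div_lt_one hx0]
          exact hcon
        linarith) (by positivity) (by ring)
    have h6 : (1 - 1 / x) • (0 : ℝ × ℝ) + (1 / x) • ((x, x) : ℝ × ℝ) = (1, 1) := by
      ext
      · simp
        field_simp
      · simp
        field_simp
    rw [h6] at h5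
    exact h5
  have hxi : ((x, x) : ℝ × ℝ) ∉ interior M' := by
    intro hcon
    have hop : IsOpen ((fun t : ℝ => ((t, t) : ℝ × ℝ)) ⁻¹' (interior M')) :=
      isOpen_interior.preimage hcont
    have h5 : x ∈ ((fun t : ℝ => ((t, t) : ℝ × ℝ)) ⁻¹' (interior M')) := hcon
    obtain ⟨ε, hε, hball⟩ := Metric.isOpen_iff.1 hop x h5
    have h6 : x + ε / 2 ∈ ((fun t : ℝ => ((t, t) : ℝ × ℝ)) ⁻¹' (interior M')) := by
      apply hball
      rw [Metric.mem_ball, Real.dist_eq]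
      rw [show x + ε / 2 - x = ε / 2 from by ring, abs_of_pos (by linarith)]
      linarith
    have h7 : x + ε / 2 ∈ X := by
      rw [hXm]
      exact interior_subset h6
    have h8 := hxmax h7
    linarith
  -- the second lattice
  have hp1 : Ph a b (x, x) ∈ M := (hmem _).1 hxM
  have hp2 : Ph a b (x, x) ∉ interior M := fun h => hxi ((hintm _).2 h)
  obtain ⟨b', hb', hb'a, hadm', hpos⟩ := h1 M hM _ hp1 hp2
  obtain ⟨q, hq⟩ : ∃ q, Ph a b q = b' := by
    refine ⟨e.symm b', ?_⟩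
    rw [← he, e.apply_symm_apply]
  rw [← hq] at hb' hb'a hadm' hpos
  have h5 := hmin _ _ hp1 hb' hb'a hadm' hpos
  rw [ph_cr] at h5
  have h6 : 1 ≤ cr (x, x) q := by
    have h7 : cr a b * 1 ≤ cr a b * cr (x, x) q := by rw [mul_one]; exact h5
    exact le_of_mul_le_mul_left h7 hD
  have h7 : cr (x, x) q = x * (q.2 - q.1) := by
    simp only [cr]
    ring
  rw [h7] at h6
  have h8 : 1 / x ≤ q.2 - q.1 := by
    rw [div_le_iff₀ hx0]
    linarith
  have hq1 : q ∈ M' := (hmem q).2 hb'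
  have hq2 : q - (x, x) ∈ M' := by
    rw [hmem, map_sub]
    exact hb'a
  have h9 := h3 M' hPB x q hx2 hx1 m1 m2 m3 hxM hq1 hq2 h8
  -- the volumes
  have hvol : (volume : Measure (ℝ × ℝ)).real M = cr a b * (volume : Measure (ℝ × ℝ)).real M' := by
    have h10 : M' = (Ph a b) ⁻¹' M := by
      ext p
      rw [hmem, mem_preimage]
    have h11 : (volume : Measure (ℝ × ℝ)) M' =
        ENNReal.ofReal |(LinearMap.det (Ph a b))⁻¹| * (volume : Measure (ℝ × ℝ)) M := by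
      rw [h10]
      apply MeasureTheory.Measure.addHaar_preimage_linearMap
      rw [ph_det]
      exact hD.ne'
    rw [ph_det] at h11
    have h12 : (volume : Measure (ℝ × ℝ)).real M' =
        (cr a b)⁻¹ * (volume : Measure (ℝ × ℝ)).real M := by
      rw [Measure.real, h11, ENNReal.toReal_mul, ENNReal.toReal_ofReal (abs_nonneg _),
        abs_of_pos (inv_pos.2 hD), Measure.real]
    rw [h12, ← mul_assoc, mul_inv_cancel₀ hD.ne', one_mul]
  have h13 : 2 * Real.sqrt 3 ≤ 3 * x + 1 / x := by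
    have hs : Real.sqrt 3 * Real.sqrt 3 = 3 := Real.mul_self_sqrt (by norm_num)
    have h14 : 0 ≤ (Real.sqrt 3 * x - 1) ^ 2 := sq_nonneg _
    have h15 : 2 * Real.sqrt 3 * x ≤ 3 * x ^ 2 + 1 := by nlinarith
    have h16 : 3 * x + 1 / x = (3 * x ^ 2 + 1) / x := by
      field_simp
    rw [h16, le_div_iff₀ hx0]
    exact h15
  rw [hvol]
  calc 2 * Real.sqrt 3 * cr a b = cr a b * (2 * Real.sqrt 3) := by ring
    _ ≤ cr a b * (volume : Measure (ℝ × ℝ)).real M' :=
        mul_le_mul_of_nonneg_left (le_trans h13 h9) hD.le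

end Pool.Agent.UL3.H23
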